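import Pool.Agent.MUR.FCB

/-!
Murty's conjecture for oriented matroids with few crossed hyperplanes at one flat of corank three.
-/

set_option autoImplicit false

namespace Pool.Agent.Results.MP_9e7f7b_co.CrossedHyperplanes

universe u

open MUR MUR.OM

/-- Let `M` be a simple oriented matroid of rank `r`. It satisfies Murty's conjecture if some flat
`F` of rank `r - 3` has `2 |Crossed F| < 6 + 2 |Rich F| + |Quad F|`. -/
theorem result : ∀ {α : Type u} [Finite α] (M : OM α), M.Simple →
    ∀ F : Set α, M.cl F = F → M.rk F + 3 = M.rank →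
      2 * (M.Crossed F).ncard < 6 + 2 * (M.Rich F).ncard + (M.Quad F).ncard →
      M.Murty := by
  intro α _ M hs F hF hr h
  exact M.few_murty hs (Or.inl ⟨F, hF, hr, h⟩)

end Pool.Agent.Results.MP_9e7f7b_co.CrossedHyperplanes
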