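import Pool.Agent.MUR.FCB

/-!
Murty's conjecture for oriented matroids of rank four with few planes of five points.
-/

set_option autoImplicit false

namespace Pool.Agent.Results.MP_9e7f7b_co.FivePointPlanes

universe u

open MUR MUR.OM

/-- Let `M` be a simple oriented matroid of rank four on `n` elements. It satisfies Murty's
conjecture if `2 |Five| < 6 n + 2 |⋃ Rich {e}| + |⋃ Quad {e}|`. -/
theorem result : ∀ {α : Type u} [Finite α] (M : OM α), M.Simple → M.rank = 4 →
    2 * M.Five.ncard < 6 * Nat.card α +
        2 * {P | ∃ e, P ∈ M.Rich {e}}.ncard + {X | ∃ e, X ∈ M.Quad {e}}.ncard →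
    M.Murty := by
  intro α _ M hs hr h
  exact M.few_murty hs (Or.inr ⟨hr, h⟩)

end Pool.Agent.Results.MP_9e7f7b_co.FivePointPlanes
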