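import Pool.Agent.MUR.FIN

/-!
Murty's conjecture for oriented matroids with a near pair.
-/

set_option autoImplicit false

namespace Pool.Agent.Results.MP_9e7f7b_co.NearPair

universe u

open MUR MUR.OM

/-- Let `M` be a simple oriented matroid of rank at least two on a finite set, `Y` a cocircuit and
`p` an element with `Y p ≠ 0` such that every hyperplane through `p` that shares a coline with the
hyperplane `{Y = 0}` is a neighbour of it. If the rank is at most six, or the restriction of `M` to
`{Y = 0}` is connected, or it has a nonempty separator of rank at most two, then `M` satisfies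
Murty's conjecture. -/
theorem result : ∀ {α : Type u} [Finite α] (M : OM α) (Y : α → SignType) (p : α),
    M.Simple → 2 ≤ M.rank → M.NearPair Y p →
    (M.rank ≤ 6 ∨ ¬ M.Disc (zs Y) ∅ ∨ M.SmallSep (zs Y)) → M.Murty := by
  intro α _ M Y p hs hr h hP
  exact M.near_murty Y p hs hr h hP

end Pool.Agent.Results.MP_9e7f7b_co.NearPair
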