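import Pool.Agent.MUR.FIN

/-!
Murty's conjecture for oriented matroids with one Euclidean program.
-/

set_option autoImplicit false

namespace Pool.Agent.Results.MP_9e7f7b_co.OneProgram

universe u

open MUR MUR.OM

/-- Let `M` be an oriented matroid on a finite set together with an element `f = none` in general
position, with `M.del = M - f` simple of rank at least two, and let `p` be an element such that the
digraph of the program `(M, p, f)` has no directed cycle. If the rank is at most eight, or for
every element `g` the digraph of the program `(M/p, g, f)` has no directed cycle, then `M - f`
satisfies Murty's conjecture. -/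
theorem result : ∀ {α : Type u} [Finite α] (M : OM (Option α)) (p : α),
    M.del.Simple → 2 ≤ M.del.rank → M.Generic none → M.Acyclic none (some p) →
    (M.del.rank ≤ 8 ∨ ∀ g, (M.con (some p)).Acyclic none (some g)) → M.del.Murty := by
  intro α _ M p hs hr hg hac hP
  exact M.program_murty p hs hr hg hac hP

end Pool.Agent.Results.MP_9e7f7b_co.OneProgram
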